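import Mathlib

/-!
MP_a4f561_co, polylog: the numbers (helper16).
`kap n k` is the success probability promised at depth `k`, `del n k` the threshold at depth `k`, `NN L R` the number of
bad steps, `n ≤ 2 ^ L` vertices, depth at most `R`.
-/

set_option autoImplicit false

namespace Pool.Agent.W_a4f561_P16

/-- The promised success probability at depth `k`. -/
noncomputable def kap (n k : ℕ) : ℝ := (1 / (32000 * (n:ℝ) ^ 4)) ^ k

/-- The threshold at depth `k`. -/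
noncomputable def del (n k : ℕ) : ℝ := kap n k / (16000 * (n:ℝ) ^ 3)

/-- The number of bad steps. -/
def NN (L R : ℕ) : ℕ := 70 * (L + 2 + R * (15 + 4 * L))

theorem kap_zero (n : ℕ) : kap n 0 = 1 := pow_zero _

theorem kap_pos {n : ℕ} (hn : 1 ≤ n) (k : ℕ) : 0 < kap n k := by
  have : (0:ℝ) < n := by exact_mod_cast hn
  unfold kap
  positivity

theorem base_le_one {n : ℕ} (hn : 1 ≤ n) : 1 / (32000 * (n:ℝ) ^ 4) ≤ 1 := by
  have h1 : (1:ℝ) ≤ n := by exact_mod_cast hn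
  have h2 : (1:ℝ) ≤ (n:ℝ) ^ 4 := one_le_pow₀ h1
  rw [div_le_one (by positivity)]
  linarith

theorem kap_anti {n : ℕ} (hn : 1 ≤ n) {k l : ℕ} (h : k ≤ l) : kap n l ≤ kap n k :=
  pow_le_pow_of_le_one (by positivity) (base_le_one hn) h

theorem kap_le_one {n : ℕ} (hn : 1 ≤ n) (k : ℕ) : kap n k ≤ 1 := by
  rw [← kap_zero n]
  exact kap_anti hn (Nat.zero_le k)

theorem del_pos {n : ℕ} (hn : 1 ≤ n) (k : ℕ) : 0 < del n k := by
  have h1 : (0:ℝ) < n := by exact_mod_cast hn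
  have h2 := kap_pos hn k
  unfold del
  positivity

theorem del_le_one {n : ℕ} (hn : 1 ≤ n) (k : ℕ) : del n k ≤ 1 := by
  have h1 : (1:ℝ) ≤ n := by exact_mod_cast hn
  have h2 := kap_le_one hn k
  have h3 : (1:ℝ) ≤ (n:ℝ) ^ 3 := one_le_pow₀ h1
  unfold del
  rw [div_le_one (by positivity)]
  linarith

/-- The promise of the next depth. -/
theorem kap_succ {n : ℕ} (hn : 1 ≤ n) (k : ℕ) : kap n (k + 1) = del n k / (2 * n) := by
  have h1 : (0:ℝ) < n := by exact_mod_cast hn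
  unfold del kap
  rw [pow_succ]
  field_simp
  ring

theorem pow_half {m : ℕ} : (100 / 101 : ℝ) ^ (70 * m) ≤ (1 / 2) ^ m := by
  rw [pow_mul]
  refine pow_le_pow_left₀ (by positivity) ?_ m
  norm_num

/-- The bad mass is smaller than the success probability (the hypothesis of the trunk lemma). -/
theorem trunk_num {n L R k : ℕ} (hn : 1 ≤ n) (hL : n ≤ 2 ^ L) (hk : k ≤ R) :
    2 * (n:ℝ) * ((100 / 101 : ℝ) ^ (NN L R + 1) + 2000 * (n:ℝ) ^ 2 * del n k) < kap n k := by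
  have h1 : (0:ℝ) < n := by exact_mod_cast hn
  have hL' : (n:ℝ) ≤ 2 ^ L := by exact_mod_cast hL
  have hκ := kap_pos hn k
  have e1 : 2 * (n:ℝ) * (2000 * (n:ℝ) ^ 2 * del n k) = kap n k / 4 := by
    unfold del
    field_simp
    ring
  have e2 : (100 / 101 : ℝ) ^ (NN L R + 1) ≤ (1 / 2) ^ (L + 2 + R * (15 + 4 * L)) := by
    calc (100 / 101 : ℝ) ^ (NN L R + 1) ≤ (100 / 101 : ℝ) ^ (NN L R) :=
          pow_le_pow_of_le_one (by norm_num) (by norm_num) (Nat.le_succ _)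
      _ ≤ _ := pow_half
  have e3 : (1 / 2 : ℝ) ^ (R * (15 + 4 * L)) ≤ kap n k := by
    have h2 : kap n R ≤ kap n k := kap_anti hn hk
    refine le_trans ?_ h2
    unfold kap
    rw [mul_comm, pow_mul]
    refine pow_le_pow_left₀ (by positivity) ?_ R
    rw [one_div_pow]
    refine one_div_le_one_div_of_le (by positivity) ?_
    rw [pow_add, pow_mul']
    have h3 : (n:ℝ) ^ 4 ≤ (2 ^ L) ^ 4 := pow_le_pow_left₀ h1.le hL' 4
    have h4 : (32000:ℝ) ≤ 2 ^ 15 := by norm_num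
    exact mul_le_mul h4 h3 (by positivity) (by positivity)
  have e4 : 2 * (n:ℝ) * (100 / 101 : ℝ) ^ (NN L R + 1) ≤ kap n k / 2 := by
    calc 2 * (n:ℝ) * (100 / 101 : ℝ) ^ (NN L R + 1) ≤
          2 * 2 ^ L * (1 / 2) ^ (L + 2 + R * (15 + 4 * L)) := by gcongr
      _ = (1 / 2 : ℝ) ^ (R * (15 + 4 * L)) / 2 := by
          rw [pow_add, pow_add]
          have : (2:ℝ) ^ L * (1 / 2) ^ L = 1 := by
            rw [← mul_pow]
            norm_num
          calc 2 * (2:ℝ) ^ L * ((1 / 2) ^ L * (1 / 2) ^ 2 * (1 / 2) ^ (R * (15 + 4 * L))) =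
                2 * ((2:ℝ) ^ L * (1 / 2) ^ L) * (1 / 2) ^ 2 * (1 / 2) ^ (R * (15 + 4 * L)) := by ring
            _ = _ := by
                rw [this]
                ring
      _ ≤ kap n k / 2 := by linarith
  rw [mul_add, e1]
  linarith

/-- The total cost. -/
theorem total_le {L R : ℕ} (hL : 1 ≤ L) (hR : R ≤ 5 * L ^ 2) :
    3 + 4 * (R * (R + 1) * (2 * NN L R + 3) * (3 * NN L R + 3)) ≤ 2 ^ 36 * L ^ 10 := by
  have hL2 : 1 ≤ L ^ 2 := Nat.one_le_pow _ _ hL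
  have hL3 : L ≤ L ^ 3 := Nat.le_self_pow (by norm_num) L
  have hL23 : L ^ 2 ≤ L ^ 3 := Nat.pow_le_pow_right hL (by norm_num)
  have h1 : 1 ≤ L ^ 3 := Nat.one_le_pow _ _ hL
  have hN : NN L R ≤ 6860 * L ^ 3 := by
    have h2 : R * (15 + 4 * L) ≤ 5 * L ^ 2 * (15 + 4 * L) := Nat.mul_le_mul_right _ hR
    have h3 : 5 * L ^ 2 * (15 + 4 * L) = 75 * L ^ 2 + 20 * L ^ 3 := by ring
    unfold NN
    omega
  have hA : 2 * NN L R + 3 ≤ 13723 * L ^ 3 := by omega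
  have hB : 3 * NN L R + 3 ≤ 20583 * L ^ 3 := by omega
  have hC : R * (R + 1) ≤ 30 * L ^ 4 := by
    calc R * (R + 1) ≤ (5 * L ^ 2) * (6 * L ^ 2) := Nat.mul_le_mul hR (by omega)
      _ = 30 * L ^ 4 := by ring
  have hD : R * (R + 1) * (2 * NN L R + 3) * (3 * NN L R + 3) ≤ 30 * L ^ 4 * (13723 * L ^ 3) * (20583 * L ^ 3) :=
    Nat.mul_le_mul (Nat.mul_le_mul hC hA) hB
  have h10 : 1 ≤ L ^ 10 := Nat.one_le_pow _ _ hL
  have hE : 30 * L ^ 4 * (13723 * L ^ 3) * (20583 * L ^ 3) = 8473815270 * L ^ 10 := by ring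
  omega

/-- `log₂ m + 1 ≤ c log n` for `m = n + 4` and `m = n`. -/
theorem log2_le {n m : ℕ} (hn : 2 ≤ n) (hm : m ≤ n + 4) : (Nat.log 2 m : ℝ) + 1 ≤ 7 * Real.log n := by
  have hn' : (2:ℝ) ≤ n := by exact_mod_cast hn
  have h1 : (0.69 : ℝ) ≤ Real.log 2 := by
    have := Real.log_two_gt_d9
    linarith
  have h2 : Real.log 2 ≤ Real.log n := Real.log_le_log (by norm_num) hn'
  rcases Nat.eq_zero_or_pos m with rfl | h0
  · rw [Nat.log_zero_right]
    push_cast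
    linarith
  have h3 : (Nat.log 2 m : ℝ) * Real.log 2 ≤ Real.log m := by
    rw [← Real.log_pow]
    refine Real.log_le_log (by positivity) ?_
    exact_mod_cast Nat.pow_log_le_self 2 (by omega)
  have h4 : Real.log m ≤ 3 * Real.log n := by
    rw [← Real.log_rpow (by linarith)]
    refine Real.log_le_log (by exact_mod_cast h0) ?_
    have h5 : (m:ℝ) ≤ n + 4 := by exact_mod_cast hm
    have h6 : (n:ℝ) ^ (3:ℝ) = (n:ℝ) ^ (3:ℕ) := by exact_mod_cast Real.rpow_natCast (n:ℝ) 3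
    rw [h6]
    nlinarith [sq_nonneg (n:ℝ), mul_self_nonneg ((n:ℝ) - 2)]
  have h5 : (0:ℝ) ≤ (Nat.log 2 m : ℝ) := by positivity
  nlinarith

/-- The final arithmetic: pages from twists of size `2 ^ 36 (log₂ (n + 4) + 1) ^ 10`. -/
theorem pages_num {n : ℕ} (hn : 2 ≤ n) :
    (((Nat.log 2 n + 1) * (2 ^ 36 * (Nat.log 2 (n + 4) + 1) ^ 10) : ℕ) : ℝ) ≤ 2 ^ 36 * 7 ^ 11 * Real.log n ^ 11 := by
  have h1 := log2_le hn (show n ≤ n + 4 by omega)
  have h2 := log2_le hn (le_refl (n + 4))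
  have h3 : (0:ℝ) ≤ (Nat.log 2 n : ℝ) + 1 := by positivity
  have h4 : (0:ℝ) ≤ (Nat.log 2 (n + 4) : ℝ) + 1 := by positivity
  have h5 : (0:ℝ) ≤ Real.log n := Real.log_nonneg (by
    have : (2:ℝ) ≤ n := by exact_mod_cast hn
    linarith)
  push_cast
  calc ((Nat.log 2 n : ℝ) + 1) * (68719476736 * ((Nat.log 2 (n + 4) : ℝ) + 1) ^ 10) ≤
        (7 * Real.log n) * (68719476736 * (7 * Real.log n) ^ 10) := by gcongr
    _ = 2 ^ 36 * 7 ^ 11 * Real.log n ^ 11 := by ring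

end Pool.Agent.W_a4f561_P16
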