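import Pool.Agent.W_a4f561_P16.DrawWI

/-!
MP_a4f561_co, polylog: the piece goes on after the draw of a phase (helper16).
-/

set_option autoImplicit false
set_option linter.unusedSectionVars false

namespace Pool.Agent.W_a4f561_P16

open Pool.Agent.W_a4f561_h26 Pool.Agent.W_a4f561_P73 Pool.Agent.W_a4f561_P45 Pool.Agent.W_a4f561_P8
open Pool.Agent.W_a4f561_h1
open Pool.Agent.W_a4f561_P25 (Tc Ar Area)

variable {V : Type} [Fintype V] [DecidableEq V] {G : Bars V} {rnk : V → ℕ} {N : ℕ}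
  {X : MS V} {S0 : Set V} {r z e vl : V} {ω : V × Bool → Bool} {σ1 : St V} {δ : ℝ}

/-- Two functions which agree on the route of `r` before `u`. -/
theorem orb_fwd {π ρ : V → V} (hρ : Ch G ρ) {r u : V} (h : Orb ρ r u)
    (ha : ∀ w, Orb ρ r w → G.t w < G.t u → π w = ρ w) : Orb π r u := by
  classical
  have h0 : ∃ k, ρ^[k] r = u := h
  have hm := Nat.find_spec h0
  have key : ∀ k, k ≤ Nat.find h0 → π^[k] r = ρ^[k] r := by
    intro k
    induction k with
    | zero => intro _; rfl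
    | succ k ih =>
      intro hk
      rw [Function.iterate_succ_apply', Function.iterate_succ_apply', ih (by omega)]
      refine ha _ ⟨k, rfl⟩ ?_
      have h1 : ρ^[k] r ≠ u := Nat.find_min h0 (by omega)
      have h2 : Orb ρ (ρ^[k] r) u := by
        refine ⟨Nat.find h0 - k, ?_⟩
        rw [← Function.iterate_add_apply, Nat.sub_add_cancel (by omega), hm]
      exact lt_of_le_of_ne (orb_t hρ h2) fun h3 => h1 (G.t_inj h3)
  exact ⟨Nat.find h0, by rw [key _ le_rfl, hm]⟩

theorem orb_bwd {π ρ : V → V} (hπ : Ch G π) {r v : V} {T : ℕ} (h : Orb π r v) (hv : G.t v < T)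
    (ha : ∀ w, Orb ρ r w → G.t w < T → π w = ρ w) : Orb ρ r v := by
  obtain ⟨k, hk⟩ := h
  have key : ∀ k, G.t (π^[k] r) < T → π^[k] r = ρ^[k] r := by
    intro k
    induction k with
    | zero => intro _; rfl
    | succ k ih =>
      intro h1
      have h2 : G.t (π^[k] r) ≤ G.t (π^[k + 1] r) := by
        rw [Function.iterate_succ_apply']
        exact orb_t hπ (orb_step (orb_refl _ _))
      have h3 := ih (by omega)
      rw [Function.iterate_succ_apply', Function.iterate_succ_apply', ← h3]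
      exact ha _ ⟨k, h3.symm⟩ (by omega)
  exact ⟨k, by rw [← key k (by rw [hk]; exact hv), hk]⟩

theorem ch_law16 (hW : WInv G X.σ z) (ω : V × Bool → Bool) : Ch G (law G X.σ ω) := by
  refine ⟨?_, ?_, fun u hu => ?_⟩
  · unfold law
    rw [if_pos (show G.bot ∈ X.σ.S ∪ X.σ.Dec from Or.inl hW.bot_mem)]
    exact hW.ch.1
  · unfold law
    rw [if_pos (show G.top ∈ X.σ.S ∪ X.σ.Dec from Or.inl hW.top_mem)]
    exact hW.ch.2.1
  · unfold law
    split_ifs with h1 h2
    · exact hW.ch.2.2 u hu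
    · rcases zz_cases G hu with ⟨k, _⟩ | ⟨k, _⟩ <;> rw [k]
      · exact Or.inr rfl
      · exact Or.inl rfl
    · rcases zz_cases G hu with ⟨_, k, _⟩ | ⟨_, k, _⟩ <;> rw [k]
      · exact Or.inl rfl
      · exact Or.inr rfl

theorem draw_PS (hW : WI G rnk N 0 X z) (hP : PS G rnk X S0 r z) (hz : z ∉ X.σ.S)
    (hT : TD G X.σ (X.D (X.cell z)) (X.E G (X.cell z)) δ N ω z e)
    (hD : Dr1 G X.σ (X.D (X.cell z)) ω z e vl σ1) :
    PS G rnk (Y1 G X ω z r vl σ1) S0 r e := by
  have hch := ch_law16 hW.inv ω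
  have hzB := z_bp (ω := ω) hW.inv hz
  have hzi : G.inn z := ⟨fun h => hz (h ▸ hW.inv.bot_mem), fun h => hz (h ▸ hW.inv.top_mem)⟩
  have hSS : ∀ v, v ∈ X.σ.S → v ∈ σ1.S := fun v hv => (hD.S v).2 (Or.inl hv)
  have hS0 : ∀ v, v ∈ S0 → v ∈ X.σ.S := fun v hv => hP.sub hv
  -- the exit is later than the phase
  have hBe : ∀ v, v ∈ Bp G X.σ (X.D (X.cell z)) ω z → G.t v < G.t e := by
    intro v hv
    by_contra hc
    exact hT.exi.2.1 (hv.2 e hT.exi.1 (not_lt.1 hc))
  have hze : G.t z < G.t e := hBe z hzB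
  have hbe : ∀ v, Orb (law G X.σ ω) z v → G.t v < G.t e → v ∈ Bp G X.σ (X.D (X.cell z)) ω z :=
    fun v hv ht => ⟨hv, fun u hu hut => hT.exi.2.2 u hu (by omega)⟩
  -- the route of `r` comes to `z`
  have hrz : Orb σ1.pi r z := orb_fwd hW.inv.ch hP.orb fun w hw ht => hD.piO w (Or.inl (hP.pc w hw ht).1)
  have hzeO : Orb σ1.pi z e := orb_fwd hch hT.exi.1 fun w hw ht => hD.piB w (hbe w hw ht)
  have hnr : ∀ v, v ∉ S0 → G.inn v := fun v hv => ⟨fun h => hv (h ▸ hP.bot0), fun h => hv (h ▸ hP.top0)⟩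
  have hrt : ∀ v, v ∈ X.σ.S → G.inn v → (Y1 G X ω z r vl σ1).rt ((Y1 G X ω z r vl σ1).phs v) = X.rt (X.phs v) :=
    fun v hv hi => by rw [phs_S hv, rt_old (hW.phs_rng v hv hi).2]
  exact
  { sub := fun v hv => hSS v (hS0 v hv)
    cl0 := fun v hv => by
      show σ1.pi v ∈ S0
      rw [hD.piO v (Or.inl (hS0 v hv))]
      exact hP.cl0 v hv
    bot0 := hP.bot0
    top0 := hP.top0
    low0 := hP.low0
    rts := by
      intro k h1 h2
      have h2' : k ≤ X.np + 1 := h2
      rcases Nat.lt_or_ge X.np k with h3 | h3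
      · obtain rfl : k = X.np + 1 := by omega
        rw [rt_new]
      · rw [rt_old h3]
        exact hP.rts k h1 h3
    rS := hP.rS
    orb := orb_trans hrz hzeO
    pc := by
      intro v hv ht
      have hv' : Orb σ1.pi r v := hv
      rcases Nat.lt_or_ge (G.t v) (G.t z) with h1 | h1
      · have h2 : Orb X.σ.pi r v := orb_bwd hD.inv.ch hv' h1 fun w hw hwt => hD.piO w (Or.inl (hP.pc w hw hwt).1)
        obtain ⟨h3, h4⟩ := hP.pc v h2 h1
        exact ⟨hSS v h3, h4⟩
      · have h2 : Orb σ1.pi z v := orb_comp hD.inv.ch hrz hv' h1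
        have h3 : Orb (law G X.σ ω) z v := orb_bwd hD.inv.ch h2 ht fun w hw hwt => hD.piB w (hbe w hw hwt)
        have h4 := hbe v h3 ht
        exact ⟨(hD.S v).2 (Or.inr h4), fun h5 => (bp_D h4).1 (hS0 v h5)⟩
    cp := by
      intro v hv hv0
      have hv' : v ∈ σ1.S := hv
      by_cases h : v ∈ Bp G X.σ (X.D (X.cell z)) ω z
      · refine ⟨orb_trans hrz (orb_fwd hch h.1 fun w hw ht => hD.piB w (hbe w hw ?_)), hBe v h, ?_⟩
        · have := hBe v h
          omega
        · rw [phs_B h, rt_new]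
      · have h1 : v ∈ X.σ.S := ((hD.S v).1 hv').resolve_right h
        obtain ⟨h2, h3, h4⟩ := hP.cp v h1 hv0
        refine ⟨orb_fwd hW.inv.ch h2 fun w hw ht => hD.piO w (Or.inl (hP.pc w hw (by omega)).1), by omega, ?_⟩
        rw [hrt v h1 (hnr v hv0)]
        exact h4
    rt0 := by
      intro v hv hi
      rw [hrt v (hS0 v hv) hi]
      exact hP.rt0 v hv hi
    le := by
      intro i h1 h2 h3
      have h3' : (Y1 G X ω z r vl σ1).rt (X.ph i) = r := h3
      rw [rt_old (hW.ph_rng i h1 h2).2] at h3'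
      have h4 := hP.le i h1 h2 h3'
      show X.e i < G.t e
      omega
    nx := by
      intro her heS
      have heS' : e ∉ σ1.S := heS
      have heX : e ∉ X.σ.S := fun h => heS' (hSS e h)
      show 1 ≤ X.np + 1 ∧ (Y1 G X ω z r vl σ1).rt (X.np + 1) = r ∧
        Mv X.par X.cls ((Y1 G X ω z r vl σ1).lc (X.np + 1)) ((Y1 G X ω z r vl σ1).cell e) ∧
        G.t ((Y1 G X ω z r vl σ1).st (X.np + 1)) ≤ G.t e
      have hvl := hBe vl hD.vlB
      have hNvl : G.t vl ≤ G.N := by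
        have h1 := bp_D hD.vlB
        exact (G.t_in vl (fun h => h1.1 (h ▸ hW.inv.bot_mem)) (fun h => h1.1 (h ▸ hW.inv.top_mem))).le
      have heA : ¬ Area G σ1.pi z (G.t vl) e := fun h => by
        have := (h.time hD.inv.ch hNvl).2
        omega
      rw [lc_new, st_new, rt_new, cell_nA heA]
      refine ⟨by omega, rfl, ?_, hze.le⟩
      obtain ⟨h1, h2⟩ := hT.eE
      rcases h1 with h1 | h1 | ⟨j, h3, h4, h5, h6⟩
      · exact Or.inl ⟨h1, fun h3 => h2 ⟨heX, h3.symm⟩⟩
      · exact absurd h1.1.1 heX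
      · exact Or.inr ⟨j, h3, h4, h5, h6⟩
    nr := by
      intro h
      exfalso
      have h1 : G.t r ≤ G.t z := orb_t hW.inv.ch hP.orb
      rw [← h] at h1
      omega }

end Pool.Agent.W_a4f561_P16
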