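import Pool.Agent.W_a4f561_h1.Def

/-!
MP_a4f561_co, polylog: all fields of the invariant after the draw of a phase (bookkeeping, helper16).
The six geometric fields (I1, LENS, I2, I3, CUST, walks) are hypotheses.
-/

set_option autoImplicit false
set_option linter.unusedSectionVars false

namespace Pool.Agent.W_a4f561_P16

open Pool.Agent.W_a4f561_h26 Pool.Agent.W_a4f561_P73 Pool.Agent.W_a4f561_P45 Pool.Agent.W_a4f561_P8
open Pool.Agent.W_a4f561_h1
open Pool.Agent.W_a4f561_P25 (Tc Ar Area)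

variable {V : Type} [Fintype V] [DecidableEq V] {G : Bars V} {rnk : V → ℕ} {N : ℕ}
  {X : MS V} {S0 : Set V} {r z e vl : V} {ω : V × Bool → Bool} {σ1 : St V} {δ : ℝ}

/-- The state after the draw. -/
noncomputable def Y1 (G : Bars V) (X : MS V) (ω : V × Bool → Bool) (z r vl : V) (σ1 : St V) : MS V :=
  X.draw σ1 (Bp G X.σ (X.D (X.cell z)) ω z) {u | Area G σ1.pi z (G.t vl) u} z r

theorem bp_D {v : V} (h : v ∈ Bp G X.σ (X.D (X.cell z)) ω z) : v ∉ X.σ.S ∧ X.cell v = X.cell z :=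
  h.2 v h.1 le_rfl

theorem z_bp (hW : WInv G X.σ z) (hz : z ∉ X.σ.S) : z ∈ Bp G X.σ (X.D (X.cell z)) ω z := by
  refine ⟨orb_refl _ _, fun v hv ht => ?_⟩
  have hzi : G.inn z := ⟨fun h => hz (h ▸ hW.bot_mem), fun h => hz (h ▸ hW.top_mem)⟩
  have hch : Ch G (law G X.σ ω) := by
    refine ⟨?_, ?_, fun u hu => ?_⟩
    · unfold law
      rw [if_pos (show G.bot ∈ X.σ.S ∪ X.σ.Dec from Or.inl hW.bot_mem)]
      exact hW.ch.1
    · unfold law
      rw [if_pos (show G.top ∈ X.σ.S ∪ X.σ.Dec from Or.inl hW.top_mem)]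
      exact hW.ch.2.1
    · unfold law
      split_ifs with h1 h2
      · exact hW.ch.2.2 u hu
      · rcases zz_cases G hu with ⟨k, _⟩ | ⟨k, _⟩ <;> rw [k]
        · exact Or.inr rfl
        · exact Or.inl rfl
      · rcases zz_cases G hu with ⟨_, k, _⟩ | ⟨_, k, _⟩ <;> rw [k]
        · exact Or.inl rfl
        · exact Or.inr rfl
  have h1 := orb_t hch hv
  have h2 : v = z := G.t_inj (le_antisymm ht h1)
  rw [h2]
  exact ⟨hz, rfl⟩

theorem phs_B {v : V} (h : v ∈ Bp G X.σ (X.D (X.cell z)) ω z) : (Y1 G X ω z r vl σ1).phs v = X.np + 1 := by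
  classical
  show (if _ then _ else _) = _
  rw [if_pos h]

theorem phs_nB {v : V} (h : v ∉ Bp G X.σ (X.D (X.cell z)) ω z) : (Y1 G X ω z r vl σ1).phs v = X.phs v := by
  classical
  show (if _ then _ else _) = _
  rw [if_neg h]

theorem phs_S {v : V} (h : v ∈ X.σ.S) : (Y1 G X ω z r vl σ1).phs v = X.phs v :=
  phs_nB fun h1 => (bp_D h1).1 h

theorem lc_new : (Y1 G X ω z r vl σ1).lc (X.np + 1) = X.cell z := by
  classical
  show (if _ then _ else _) = _
  rw [if_pos rfl]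

theorem lc_old {k : ℕ} (h : k ≤ X.np) : (Y1 G X ω z r vl σ1).lc k = X.lc k := by
  classical
  show (if _ then _ else _) = _
  rw [if_neg (by omega)]

theorem st_new : (Y1 G X ω z r vl σ1).st (X.np + 1) = z := by
  classical
  show (if _ then _ else _) = _
  rw [if_pos rfl]

theorem st_old {k : ℕ} (h : k ≤ X.np) : (Y1 G X ω z r vl σ1).st k = X.st k := by
  classical
  show (if _ then _ else _) = _
  rw [if_neg (by omega)]

theorem rt_new : (Y1 G X ω z r vl σ1).rt (X.np + 1) = r := by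
  classical
  show (if _ then _ else _) = _
  rw [if_pos rfl]

theorem rt_old {k : ℕ} (h : k ≤ X.np) : (Y1 G X ω z r vl σ1).rt k = X.rt k := by
  classical
  show (if _ then _ else _) = _
  rw [if_neg (by omega)]

theorem cell_A {v : V} (h : Area G σ1.pi z (G.t vl) v) : (Y1 G X ω z r vl σ1).cell v = X.cell z := by
  classical
  show (if _ then _ else _) = _
  rw [if_pos (show v ∈ {u | Area G σ1.pi z (G.t vl) u} from h)]

theorem cell_nA {v : V} (h : ¬ Area G σ1.pi z (G.t vl) v) : (Y1 G X ω z r vl σ1).cell v = X.cell v := by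
  classical
  show (if _ then _ else _) = _
  rw [if_neg (show v ∉ {u | Area G σ1.pi z (G.t vl) u} from h)]

/-- The old phases do not change. -/
theorem P_old (hD : Dr1 G X.σ (X.D (X.cell z)) ω z e vl σ1) {k : ℕ} (h : k ≤ X.np) :
    (Y1 G X ω z r vl σ1).P G k = X.P G k := by
  ext v
  constructor
  · rintro ⟨h1, h2, h3⟩
    by_cases h4 : v ∈ Bp G X.σ (X.D (X.cell z)) ω z
    · rw [phs_B h4] at h3
      omega
    · rw [phs_nB h4] at h3
      exact ⟨((hD.S v).1 h1).resolve_right h4, h2, h3⟩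
  · rintro ⟨h1, h2, h3⟩
    exact ⟨(hD.S v).2 (Or.inl h1), h2, by rw [phs_S h1]; exact h3⟩

/-- The new phase. -/
theorem P_new (hW : WI G rnk N 0 X z) (hD : Dr1 G X.σ (X.D (X.cell z)) ω z e vl σ1) :
    (Y1 G X ω z r vl σ1).P G (X.np + 1) = Bp G X.σ (X.D (X.cell z)) ω z := by
  ext v
  constructor
  · rintro ⟨h1, h2, h3⟩
    by_contra h4
    rw [phs_nB h4] at h3
    have h5 := (hW.phs_rng v (((hD.S v).1 h1).resolve_right h4) h2).2
    omega
  · intro h
    have h1 := (bp_D h).1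
    exact ⟨(hD.S v).2 (Or.inr h), ⟨fun h2 => h1 (h2 ▸ hW.inv.bot_mem), fun h2 => h1 (h2 ▸ hW.inv.top_mem)⟩,
      phs_B h⟩

theorem draw_WI (hW : WI G rnk N 0 X z) (hP : PS G rnk X S0 r z) (hz : z ∉ X.σ.S)
    (hD : Dr1 G X.σ (X.D (X.cell z)) ω z e vl σ1)
    (hI1 : ∀ v, v ∉ σ1.S → kap (Fintype.card V) (X.rk ((Y1 G X ω z r vl σ1).cell v)) ≤
      pr (fun _ => none) (fun ω' => LV G ((Y1 G X ω z r vl σ1).D ((Y1 G X ω z r vl σ1).cell v))
        ((Y1 G X ω z r vl σ1).E G ((Y1 G X ω z r vl σ1).cell v)) (law G σ1 ω') v))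
    (hlens : ∀ i, LENS G σ1 ((Y1 G X ω z r vl σ1).D i) (X.s i))
    (hI2 : ∀ i, 1 ≤ i → ∀ v ∈ σ1.S, G.inn v → v ∈ (Y1 G X ω z r vl σ1).C i →
      σ1.pi v ∈ (Y1 G X ω z r vl σ1).C i ∨ σ1.pi v ∈ (Y1 G X ω z r vl σ1).Ex G i)
    (hI3 : ∀ i, 1 ≤ i → ∀ v ∈ (Y1 G X ω z r vl σ1).C i, X.s i < G.t v ∧ G.t v < X.e i)
    (hcu : ∀ k b kd v w, X.ev k b kd v w → ∀ y, Hd (sG G b) kd v y → (Y1 G X ω z r vl σ1).Kept G k b w y)
    (hrk : (∀ v ∈ σ1.S, G.inn v → PD G σ1.S σ1.pi ((Y1 G X ω z r vl σ1).rt ((Y1 G X ω z r vl σ1).phs v)) v) ∧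
      (∀ v ∈ σ1.S, G.inn v → v ∉ Low G rnk σ1.pi (rnk ((Y1 G X ω z r vl σ1).rt ((Y1 G X ω z r vl σ1).phs v)))) ∧
      (∀ v, v ∉ σ1.S → ∀ i, 1 ≤ i → v ∈ (Y1 G X ω z r vl σ1).C i → ∃ w ∈ σ1.S, G.inn w ∧
        (Y1 G X ω z r vl σ1).rt ((Y1 G X ω z r vl σ1).phs w) = (Y1 G X ω z r vl σ1).rt (X.ph i) ∧
        Walk G (Low G rnk σ1.pi (rnk ((Y1 G X ω z r vl σ1).rt (X.ph i)))) v w)) :
    WI G rnk N (X.np + 1) (Y1 G X ω z r vl σ1) e := by
  have hzB := z_bp (ω := ω) hW.inv hz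
  have hzi : G.inn z := ⟨fun h => hz (h ▸ hW.inv.bot_mem), fun h => hz (h ▸ hW.inv.top_mem)⟩
  have hSS : ∀ v, v ∈ X.σ.S → v ∈ σ1.S := fun v hv => (hD.S v).2 (Or.inl hv)
  have hph : ∀ i, 1 ≤ i → i < X.nl → X.ph i ≤ X.np := fun i h1 h2 => (hW.ph_rng i h1 h2).2
  have hrz : r ≠ z → r ∈ X.σ.S := by
    intro h
    have h1 : G.t r < G.t z := by
      refine lt_of_le_of_ne (orb_t hW.inv.ch hP.orb) fun h2 => h (G.t_inj h2)
    exact (hP.pc r (orb_refl _ _) h1).1
  exact
  { inv := hD.inv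
    lab := hW.lab
    par_lt := hW.par_lt
    s0 := hW.s0
    rk0 := hW.rk0
    dflt := hW.dflt
    nl_pos := hW.nl_pos
    cell_lt := by
      intro v
      show (Y1 G X ω z r vl σ1).cell v < X.nl
      by_cases h : Area G σ1.pi z (G.t vl) v
      · rw [cell_A h]
        exact hW.cell_lt z
      · rw [cell_nA h]
        exact hW.cell_lt v
    ph_rng := by
      intro i h1 h2
      have h3 := hW.ph_rng i h1 h2
      show 1 ≤ X.ph i ∧ X.ph i ≤ X.np + 1
      omega
    lab_par := by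
      intro i h1 h2
      show X.par i = (Y1 G X ω z r vl σ1).lc (X.ph i)
      rw [lc_old (hph i h1 h2)]
      exact hW.lab_par i h1 h2
    lab_rk := by
      intro i h1 h2
      show X.rk i = rnk ((Y1 G X ω z r vl σ1).rt (X.ph i)) + 1
      rw [rt_old (hph i h1 h2)]
      exact hW.lab_rk i h1 h2
    lab_e := by
      intro i h1 h2
      show ∃ v ∈ (Y1 G X ω z r vl σ1).P G (X.ph i), G.t v = X.e i
      rw [P_old hD (hph i h1 h2)]
      exact hW.lab_e i h1 h2
    lc_lt := by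
      intro k h1 h2
      have h2' : k ≤ X.np + 1 := h2
      show (Y1 G X ω z r vl σ1).lc k < X.nl
      rcases Nat.lt_or_ge X.np k with h3 | h3
      · obtain rfl : k = X.np + 1 := by omega
        rw [lc_new]
        exact hW.cell_lt z
      · rw [lc_old h3]
        exact hW.lc_lt k h1 h3
    phs_rng := by
      intro v hv hi
      show 1 ≤ (Y1 G X ω z r vl σ1).phs v ∧ (Y1 G X ω z r vl σ1).phs v ≤ X.np + 1
      by_cases h : v ∈ Bp G X.σ (X.D (X.cell z)) ω z
      · rw [phs_B h]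
        omega
      · rw [phs_nB h]
        have h3 := hW.phs_rng v (((hD.S v).1 hv).resolve_right h) hi
        omega
    cellS := by
      intro v hv hi
      have hA : ¬ Area G σ1.pi z (G.t vl) v := hD.noS v hv
      rw [cell_nA hA]
      by_cases h : v ∈ Bp G X.σ (X.D (X.cell z)) ω z
      · rw [phs_B h, lc_new]
        exact (bp_D h).2
      · have hvS := ((hD.S v).1 hv).resolve_right h
        rw [phs_nB h, lc_old (hW.phs_rng v hvS hi).2]
        exact hW.cellS v hvS hi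
    I1 := hI1
    I2 := hI2
    I3 := hI3
    lens := hlens
    evd := by
      intro k b kd v w he
      obtain ⟨h1, h2, h3, h4, h5, h6, h7⟩ := hW.evd k b kd v w he
      show 1 ≤ k ∧ k ≤ X.np + 1 ∧ v ∈ (Y1 G X ω z r vl σ1).P G k ∧ (sG G b).lo v ∈ (Y1 G X ω z r vl σ1).P G k ∧
        σ1.pi v = (sG G b).lo v ∧ w ∈ (Y1 G X ω z r vl σ1).P G k ∧ G.t v < G.t w
      rw [P_old hD h2]
      exact ⟨h1, by omega, h3, h4, by rw [hD.piO v (Or.inl h3.1)]; exact h5, h6, h7⟩
    cust := hcu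
    own := by
      intro k h1 h2 h3 π hπ hk b
      have h2' : k ≤ X.np := by
        have h4 : k ≤ X.np + 1 := h2
        omega
      have hπ' : Fin' G X.σ π := by
        refine ⟨hπ.1, fun v hv => ?_⟩
        rw [← hD.piO v hv]
        rcases hv with hv | hv
        · exact hπ.2 v (Or.inl (hSS v hv))
        · exact hπ.2 v (Or.inr (hD.Dec hv))
      rw [P_old hD h2']
      refine hW.own k h1 h2' (by omega) π hπ' (fun b' kd v w he y hy => ?_) b
      obtain ⟨u, hu, h4, h5⟩ := hk b' kd v w he y hy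
      rw [P_old hD h2'] at hu
      exact ⟨u, hu, h4, h5⟩
    root := hrk.1
    rtS := by
      intro k h1 h2
      have h2' : k ≤ X.np + 1 := h2
      show (Y1 G X ω z r vl σ1).rt k ∈ σ1.S ∧ G.inn ((Y1 G X ω z r vl σ1).rt k) ∧
        (Y1 G X ω z r vl σ1).st k ∈ (Y1 G X ω z r vl σ1).P G k
      rcases Nat.lt_or_ge X.np k with h3 | h3
      · obtain rfl : k = X.np + 1 := by omega
        rw [rt_new, st_new, P_new hW hD]
        refine ⟨?_, ⟨fun h4 => hP.rS (h4 ▸ hP.bot0), fun h4 => hP.rS (h4 ▸ hP.top0)⟩, hzB⟩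
        by_cases h4 : r = z
        · rw [h4]
          exact (hD.S z).2 (Or.inr hzB)
        · exact hSS r (hrz h4)
      · rw [rt_old h3, st_old h3, P_old hD h3]
        obtain ⟨h4, h5, h6⟩ := hW.rtS k h1 h3
        exact ⟨hSS _ h4, h5, h6⟩
    win := by
      intro k h1 h2 h3
      have h2' : k ≤ X.np + 1 := h2
      show X.s ((Y1 G X ω z r vl σ1).lc k) < G.t ((Y1 G X ω z r vl σ1).st k) ∧
        G.t ((Y1 G X ω z r vl σ1).st k) < X.e ((Y1 G X ω z r vl σ1).lc k)
      rcases Nat.lt_or_ge X.np k with h4 | h4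
      · obtain rfl : k = X.np + 1 := by omega
        rw [lc_new] at h3
        rw [lc_new, st_new]
        exact hW.I3 (X.cell z) h3 z (anc_refl _ _)
      · rw [lc_old h4] at h3
        rw [lc_old h4, st_old h4]
        exact hW.win k h1 h4 h3
    mv := by
      intro k h1 h2 h3
      have h2' : k + 1 ≤ X.np + 1 := h2
      show Mv X.par X.cls ((Y1 G X ω z r vl σ1).lc k) ((Y1 G X ω z r vl σ1).lc (k + 1)) ∧
        G.t ((Y1 G X ω z r vl σ1).st k) ≤ G.t ((Y1 G X ω z r vl σ1).st (k + 1))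
      rcases Nat.lt_or_ge X.np (k + 1) with h4 | h4
      · obtain rfl : k = X.np := by omega
        rw [rt_new, rt_old le_rfl] at h3
        have h5 : z ≠ r := fun h6 => hP.nr h6 X.np h1 le_rfl h3
        obtain ⟨_, _, h6, h7⟩ := hP.nx h5 hz
        rw [lc_new, lc_old le_rfl, st_new, st_old le_rfl]
        exact ⟨h6, h7⟩
      · rw [rt_old (by omega), rt_old h4] at h3
        rw [lc_old (by omega), lc_old h4, st_old (by omega), st_old h4]
        exact hW.mv k h1 h4 h3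
    cont := by
      intro k l m h1 h2 h3 h4 h5
      have h4' : m ≤ X.np + 1 := h4
      rcases Nat.lt_or_ge X.np m with h6 | h6
      · obtain rfl : m = X.np + 1 := by omega
        rw [rt_new] at h5
        rcases Nat.lt_or_ge X.np l with h7 | h7
        · obtain rfl : l = X.np + 1 := by omega
          rw [rt_new, h5]
        · rw [rt_old (by omega : k ≤ X.np)] at h5
          have h8 : z ≠ r := fun h9 => hP.nr h9 k h1 (by omega) h5
          obtain ⟨h9, h10, _, _⟩ := hP.nx h8 hz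
          rw [rt_old h7, rt_old (by omega : k ≤ X.np)]
          exact hW.cont k l X.np h1 h2 h7 le_rfl (by rw [h5, h10])
      · rw [rt_old (by omega : k ≤ X.np), rt_old h6] at h5
        rw [rt_old (by omega : l ≤ X.np), rt_old (by omega : k ≤ X.np)]
        exact hW.cont k l m h1 h2 h3 h6 h5
    low := hrk.2.1
    wlk := hrk.2.2 }

end Pool.Agent.W_a4f561_P16
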